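import Pool.Agent.J4H96.AV.Tool
import Pool.Agent.J4H63.GZ.Conv

/-!
# Few candidates, with advice
-/

set_option autoImplicit false

namespace Pool.Agent.J4H96.AV

open Pool.Agent.J4H63.GZ

/-- `f v` belongs to a set of at most `m` candidates, which is `Δ₀` with advice -/
def EnumA (m : ℕ) {k : ℕ} (f : (Fin k → ℕ) → ℕ) : Prop :=
  ∃ (A : Type) (_ : Finite A) (Φ : (A ⊕ Option (Fin k) → ℕ) → Prop) (c : ℕ), Bd Φ ∧
    ∀ z : ℕ, ∃ α : A → ℕ, (∀ i, α i ≤ (z + 2) ^ c) ∧ ∀ v : Fin k → ℕ, (∀ i, v i ≤ z) →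
      Φ (Sum.elim α (fun o => o.elim (f v) v)) ∧
        {y | Φ (Sum.elim α (fun o => o.elim y v))}.encard ≤ m

/-- for each list of `N` different numbers, at least one position is excluded as the position of
`f v`, and all this is `Δ₀` with advice -/
def ExclA (N : ℕ) {k : ℕ} (f : (Fin k → ℕ) → ℕ) : Prop :=
  ∃ (A : Type) (_ : Finite A) (Γ : Fin N → (A ⊕ (Fin N ⊕ Fin k) → ℕ) → Prop) (c : ℕ),
    (∀ i, Bd (Γ i)) ∧ ∀ z : ℕ, ∃ α : A → ℕ, (∀ i, α i ≤ (z + 2) ^ c) ∧
      ∀ (β : Fin N → ℕ) (v : Fin k → ℕ), (∀ i, β i ≤ z) → (∀ i, v i ≤ z) →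
        Function.Injective β → (∃ i, Γ i (Sum.elim α (Sum.elim β v))) ∧
          ∀ i, Γ i (Sum.elim α (Sum.elim β v)) → β i ≠ f v

theorem enum_of_excl {m k : ℕ} {f : (Fin k → ℕ) → ℕ} (hf : E2 k f) (H : ExclA (m + 1) f) :
    EnumA m f := by
  obtain ⟨A, hA, Γ, c, hΓ, H⟩ := H
  obtain ⟨b, hb, hfb⟩ := e2_bd hf
  obtain ⟨d, hd⟩ := pf_pow hb
  refine ⟨A, hA, fun w => w (Sum.inr none) ≤ b (fun i => w (Sum.inr (some i))) ∧
    ¬ ∃ β : Fin (m + 1) → ℕ, (∀ i, β i ≤ b (fun i => w (Sum.inr (some i)))) ∧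
      (Function.Injective (fun i => β i) ∧ ∃ i, β i = w (Sum.inr none) ∧
        Γ i (Sum.elim (fun a => w (Sum.inl a)) (Sum.elim β (fun j => w (Sum.inr (some j)))))),
    (d + 2) * c, ?_, ?_⟩
  · have hb' : PF (fun w : A ⊕ Option (Fin k) → ℕ => b (fun i => w (Sum.inr (some i)))) :=
      hb.comp fun i => PF.proj _
    refine Bd.and (Bd.lef (PF.proj _) hb') (Bd.not ?_)
    refine Bd.exVec (Fin (m + 1)) (P := fun (w : A ⊕ Option (Fin k) → ℕ) β =>
      Function.Injective (fun i => β i) ∧ ∃ i, β i = w (Sum.inr none) ∧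
        Γ i (Sum.elim (fun a => w (Sum.inl a)) (Sum.elim β (fun j => w (Sum.inr (some j))))))
      hb' ?_
    refine Bd.and (Bd_inj (m + 1) (r := fun i (w : (A ⊕ Option (Fin k)) ⊕ Fin (m + 1) → ℕ) =>
      w (Sum.inr i)) fun i => PF.proj _) ?_
    refine Bd_exFin (m + 1) (P := fun i (w : (A ⊕ Option (Fin k)) ⊕ Fin (m + 1) → ℕ) =>
      w (Sum.inr i) = w (Sum.inl (Sum.inr none)) ∧
        Γ i (Sum.elim (fun a => w (Sum.inl (Sum.inl a))) (Sum.elim (fun j => w (Sum.inr j))
          (fun j => w (Sum.inl (Sum.inr (some j))))))) fun i => ?_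
    refine Bd.and (Bd.eqf (PF.proj _) (PF.proj _)) ?_
    refine ((hΓ i).subst (f := fun s (w : (A ⊕ Option (Fin k)) ⊕ Fin (m + 1) → ℕ) =>
      (Sum.elim (fun a => w (Sum.inl (Sum.inl a))) (Sum.elim (fun j => w (Sum.inr j))
          (fun j => w (Sum.inl (Sum.inr (some j)))))) s) ?_).congr fun w => Iff.rfl
    rintro (a | j | j)
    · exact PF.proj _
    · exact PF.proj _
    · exact PF.proj _
  · intro z
    obtain ⟨α, hα, hα'⟩ := H ((z + 2) ^ d + z)
    refine ⟨α, fun i => (hα i).trans ?_, fun v hv => ?_⟩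
    · rw [pow_mul]
      refine Nat.pow_le_pow_left ?_ c
      have h1 : (z + 2) ^ d ≤ (z + 2) ^ (d + 1) := Nat.pow_le_pow_right (by omega) (by omega)
      have h2 : (z + 2) ^ 1 ≤ (z + 2) ^ (d + 1) := Nat.pow_le_pow_right (by omega) (by omega)
      calc (z + 2) ^ d + z + 2 ≤ (z + 2) ^ (d + 1) + (z + 2) ^ (d + 1) := by
            rw [pow_one] at h2; omega
        _ = (z + 2) ^ (d + 1) * 2 := by ring
        _ ≤ (z + 2) ^ (d + 1) * (z + 2) := Nat.mul_le_mul_left _ (by omega)
        _ = (z + 2) ^ (d + 2) := (pow_succ _ _).symm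
    · have hbz := hd z v hv
      have hgood : ∀ β : Fin (m + 1) → ℕ, (∀ i, β i ≤ b v) → Function.Injective β →
          (∃ i, Γ i (Sum.elim α (Sum.elim β v))) ∧
          ∀ i, Γ i (Sum.elim α (Sum.elim β v)) → β i ≠ f v := fun β hβ hi =>
        hα' β v (fun i => (hβ i).trans (by omega)) (fun i => (hv i).trans (by omega)) hi
      refine ⟨⟨hfb v, ?_⟩, ?_⟩
      · rintro ⟨β, h1, h2, i, h3, h4⟩
        exact (hgood β h1 h2).2 i h4 h3
      · by_contra hcon
        rw [not_le] at hcon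
        have h1 : ((m + 1 : ℕ) : ℕ∞) ≤ {y | Sum.elim α (fun o : Option (Fin k) => o.elim y v)
            (Sum.inr none) ≤ b (fun i => Sum.elim α (fun o : Option (Fin k) => o.elim y v)
            (Sum.inr (some i))) ∧
          ¬ ∃ β : Fin (m + 1) → ℕ, (∀ i, β i ≤ b (fun i => Sum.elim α
              (fun o : Option (Fin k) => o.elim y v) (Sum.inr (some i)))) ∧
            (Function.Injective (fun i => β i) ∧ ∃ i, β i = Sum.elim α
              (fun o : Option (Fin k) => o.elim y v) (Sum.inr none) ∧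
              Γ i (Sum.elim (fun a => Sum.elim α (fun o : Option (Fin k) => o.elim y v)
                (Sum.inl a)) (Sum.elim β (fun j => Sum.elim α
                (fun o : Option (Fin k) => o.elim y v) (Sum.inr (some j))))))}.encard := by
          have := Order.add_one_le_of_lt hcon
          push_cast
          exact this
        obtain ⟨t, ht, htc⟩ := Set.exists_subset_encard_eq h1
        have htf : t.Finite := Set.finite_of_encard_eq_coe htc
        have htn : t.ncard = m + 1 := by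
          rw [Set.ncard_def, htc]
          rfl
        have e : Nonempty (Fin (m + 1) ≃ t) := by
          have := htf.fintype
          have hc : Fintype.card t = m + 1 := by
            rw [← htn, Set.ncard_eq_toFinset_card' t, Set.toFinset_card]
          exact ⟨(Fintype.equivFinOfCardEq hc).symm⟩
        obtain ⟨e⟩ := e
        have hmem : ∀ i, ((e i : t) : ℕ) ∈ t := fun i => (e i).2
        have hle : ∀ i, ((e i : t) : ℕ) ≤ b v := fun i => (ht (hmem i)).1
        have hinj : Function.Injective (fun i => ((e i : t) : ℕ)) := fun i j hij =>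
          e.injective (Subtype.ext hij)
        obtain ⟨⟨i, hi⟩, _⟩ := hgood (fun i => ((e i : t) : ℕ)) hle hinj
        exact (ht (hmem i)).2 ⟨fun i => ((e i : t) : ℕ), hle, hinj, i, rfl, hi⟩

/-- one candidate less -/
theorem enum_pred {n : ℕ} (H : ∀ (k : ℕ) (f : (Fin k → ℕ) → ℕ), E2 k f → EnumA (n + 2) f) {k : ℕ}
    {f : (Fin k → ℕ) → ℕ} (hf : E2 k f) : EnumA (n + 1) f := by
  classical
  obtain ⟨b, hb, hfb⟩ := e2_bd hf
  obtain ⟨d, hd⟩ := pf_pow hb
  have hF : E2 (k + k) (fun w => pr (f (fun i => w (Fin.castAdd k i)))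
      (f (fun i => w (Fin.natAdd k i)))) := by
    have h1 : E2 (k + k) (fun w => f (fun i => w (Fin.castAdd k i))) := hf.projs _
    have h2 : E2 (k + k) (fun w => f (fun i => w (Fin.natAdd k i))) := hf.projs _
    exact E2.add (E2.mulf (E2.add h1 h2) (E2.add h1 h2)) h1
  obtain ⟨A, hA, Φ, c, hΦ, H⟩ := H _ _ hF
  -- the old candidates for the pair
  let Ψ : (A → ℕ) → ℕ → ℕ → (Fin k → ℕ) → (Fin k → ℕ) → Prop := fun α s t x y =>
    Φ (Sum.elim α (fun o => o.elim (pr s t) (Fin.append x y)))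
  have hΨ : ∀ {ι : Type} {α : A → (ι → ℕ) → ℕ} {s t : (ι → ℕ) → ℕ} {x y : Fin k → (ι → ℕ) → ℕ},
      (∀ a, PF (α a)) → PF s → PF t → (∀ i, PF (x i)) → (∀ i, PF (y i)) →
      Bd (fun v => Ψ (fun a => α a v) (s v) (t v) (fun i => x i v) (fun i => y i v)) := by
    intro ι α s t x y hα hs ht hx hy
    refine (hΦ.subst (f := fun o v => Sum.elim (fun a => α a v) (fun o : Option (Fin (k + k)) =>
      o.elim (pr (s v) (t v)) (Fin.append (fun i => x i v) (fun i => y i v))) o) ?_).congr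
      fun v => Iff.rfl
    rintro (a | o)
    · exact hα a
    · cases o with
      | none => exact ((hs.add ht).mul (hs.add ht)).add hs
      | some i =>
        refine Fin.addCases (fun i => ?_) (fun i => ?_) i
        · simp only [Sum.elim_inr, Option.elim_some, Fin.append_left]
          exact hx i
        · simp only [Sum.elim_inr, Option.elim_some, Fin.append_right]
          exact hy i
  refine ⟨A ⊕ (Fin 3 ⊕ Fin k), inferInstance, fun w =>
    (w (Sum.inl (Sum.inr (Sum.inl 0))) = 0 ∧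
      w (Sum.inr none) ≤ b (fun i => w (Sum.inr (some i))) ∧
      ∃ x : Fin k → ℕ, (∀ i, x i ≤ w (Sum.inl (Sum.inr (Sum.inl 1)))) ∧
        ∀ s ≤ b (fun i => w (Sum.inr (some i))), ∀ t ≤ b x,
          Ψ (fun a => w (Sum.inl (Sum.inl a))) s t (fun i => w (Sum.inr (some i))) x →
            s = w (Sum.inr none)) ∨
    (¬ w (Sum.inl (Sum.inr (Sum.inl 0))) = 0 ∧
      Ψ (fun a => w (Sum.inl (Sum.inl a))) (w (Sum.inl (Sum.inr (Sum.inl 2)))) (w (Sum.inr none))
        (fun i => w (Sum.inl (Sum.inr (Sum.inr i)))) (fun i => w (Sum.inr (some i)))),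
    c + d + 1, ?_, ?_⟩
  · refine Bd.or (Bd.and (Bd.eqf (PF.proj _) (PF.const 0)) (Bd.and (Bd.lef (PF.proj _)
      (hb.comp fun i => PF.proj _)) ?_)) (Bd.and (Bd.not (Bd.eqf (PF.proj _) (PF.const 0)))
      (hΨ (fun a => PF.proj _) (PF.proj _) (PF.proj _) (fun i => PF.proj _) fun i => PF.proj _))
    refine Bd.exVec (Fin k) (b := fun w : (A ⊕ (Fin 3 ⊕ Fin k)) ⊕ Option (Fin k) → ℕ =>
        w (Sum.inl (Sum.inr (Sum.inl 1))))
      (P := fun (w : (A ⊕ (Fin 3 ⊕ Fin k)) ⊕ Option (Fin k) → ℕ) x =>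
        ∀ s ≤ b (fun i => w (Sum.inr (some i))), ∀ t ≤ b x,
          Ψ (fun a => w (Sum.inl (Sum.inl a))) s t (fun i => w (Sum.inr (some i))) x →
            s = w (Sum.inr none)) (PF.proj _) ?_
    refine Bd.all_le (b := fun w : ((A ⊕ (Fin 3 ⊕ Fin k)) ⊕ Option (Fin k)) ⊕ Fin k → ℕ =>
        b (fun i => w (Sum.inl (Sum.inr (some i)))))
      (P := fun (w : ((A ⊕ (Fin 3 ⊕ Fin k)) ⊕ Option (Fin k)) ⊕ Fin k → ℕ) s =>
        ∀ t ≤ b (fun j => w (Sum.inr j)),
          Ψ (fun a => w (Sum.inl (Sum.inl (Sum.inl a)))) s t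
            (fun i => w (Sum.inl (Sum.inr (some i)))) (fun j => w (Sum.inr j)) →
            s = w (Sum.inl (Sum.inr none))) (hb.comp fun i => PF.proj _) ?_
    refine Bd.all_le (b := fun w : Option (((A ⊕ (Fin 3 ⊕ Fin k)) ⊕ Option (Fin k)) ⊕ Fin k) → ℕ =>
        b (fun j => w (some (Sum.inr j))))
      (P := fun (w : Option (((A ⊕ (Fin 3 ⊕ Fin k)) ⊕ Option (Fin k)) ⊕ Fin k) → ℕ) t =>
          Ψ (fun a => w (some (Sum.inl (Sum.inl (Sum.inl a))))) (w none) t
            (fun i => w (some (Sum.inl (Sum.inr (some i))))) (fun j => w (some (Sum.inr j))) →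
            w none = w (some (Sum.inl (Sum.inr none)))) (hb.comp fun i => PF.proj _) ?_
    exact Bd.imp (hΨ (fun a => PF.proj _) (PF.proj _) (PF.proj _) (fun i => PF.proj _)
      fun i => PF.proj _) (Bd.eqf (PF.proj _) (PF.proj _))
  · intro z
    obtain ⟨α, hα, hα'⟩ := H z
    have htrue : ∀ x y : Fin k → ℕ, (∀ i, x i ≤ z) → (∀ i, y i ≤ z) → Ψ α (f x) (f y) x y := by
      intro x y hx hy
      have h := (hα' (Fin.append x y) (by
        intro i
        refine Fin.addCases (fun i => ?_) (fun i => ?_) i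
        · rw [Fin.append_left]; exact hx i
        · rw [Fin.append_right]; exact hy i)).1
      simpa only [Fin.append_left, Fin.append_right] using h
    have hcard : ∀ x y : Fin k → ℕ, (∀ i, x i ≤ z) → (∀ i, y i ≤ z) →
        {q | Φ (Sum.elim α (fun o => o.elim q (Fin.append x y)))}.encard ≤ ((n + 2 : ℕ) : ℕ∞) := by
      intro x y hx hy
      exact (hα' (Fin.append x y) (by
        intro i
        refine Fin.addCases (fun i => ?_) (fun i => ?_) i
        · rw [Fin.append_left]; exact hx i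
        · rw [Fin.append_right]; exact hy i)).2
    have hp1 : (z + 2) ^ c ≤ (z + 2) ^ (c + d + 1) := Nat.pow_le_pow_right (by omega) (by omega)
    have hp2 : (z + 2) ^ d ≤ (z + 2) ^ (c + d + 1) := Nat.pow_le_pow_right (by omega) (by omega)
    have hp3 : z + 2 ≤ (z + 2) ^ (c + d + 1) := by
      calc z + 2 = (z + 2) ^ 1 := (pow_one _).symm
        _ ≤ _ := Nat.pow_le_pow_right (by omega) (by omega)
    by_cases hcase : ∀ x : Fin k → ℕ, (∀ i, x i ≤ z) → ∃ y : Fin k → ℕ, (∀ i, y i ≤ z) ∧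
        ∀ s ≤ b x, ∀ t ≤ b y, Ψ α s t x y → s = f x
    · refine ⟨Sum.elim α (Sum.elim ![0, z, 0] (fun _ => 0)), ?_, fun v hv => ?_⟩
      · rintro (a | j | j)
        · exact (hα a).trans hp1
        · fin_cases j
          · exact Nat.zero_le _
          · change z ≤ _
            omega
          · exact Nat.zero_le _
        · exact Nat.zero_le _
      · obtain ⟨y, hy, hy'⟩ := hcase v hv
        refine ⟨Or.inl ⟨rfl, hfb v, y, hy, fun s hs t ht h => hy' s hs t ht h⟩, ?_⟩
        refine (Set.encard_le_encard (t := {f v}) ?_).trans ?_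
        · rintro q (⟨_, _, x, hx, hx'⟩ | ⟨h, _⟩)
          · exact (hx' (f v) (hfb v) (f x) (hfb x) (htrue v x hv hx)).symm
          · exact absurd rfl h
        · rw [Set.encard_singleton]
          exact_mod_cast Nat.succ_le_succ (Nat.zero_le n)
    · push Not at hcase
      obtain ⟨x, hx, hcase⟩ := hcase
      refine ⟨Sum.elim α (Sum.elim ![1, z, f x] x), ?_, fun v hv => ?_⟩
      · rintro (a | j | j)
        · exact (hα a).trans hp1
        · fin_cases j
          · change 1 ≤ _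
            omega
          · change z ≤ _
            omega
          · exact ((hfb x).trans (hd z x hx)).trans hp2
        · exact (hx j).trans (by omega)
      · refine ⟨Or.inr ⟨one_ne_zero, htrue x v hx hv⟩, ?_⟩
        obtain ⟨s, _, t, _, hst, hne⟩ := hcase v hv
        have hc := hcard x v hx hv
        set S := {q | Φ (Sum.elim α (fun o => o.elim q (Fin.append x v)))} with hS
        have hmem : pr s t ∈ S := hst
        have h1 : (S \ {pr s t}).encard ≤ ((n + 1 : ℕ) : ℕ∞) := by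
          have h2 := Set.encard_sdiff_singleton_add_one hmem
          have h3 : (S \ {pr s t}).encard + 1 ≤ ((n + 1 : ℕ) : ℕ∞) + 1 := by
            rw [h2]
            refine hc.trans ?_
            push_cast
            exact le_of_eq (by ring)
          exact (ENat.add_le_add_iff_right (by simp)).1 h3
        refine le_trans ?_ h1
        refine Set.encard_le_encard_of_injOn (f := fun q => pr (f x) q) ?_ ?_
        · rintro q (⟨h, _⟩ | ⟨_, h⟩)
          · exact absurd h one_ne_zero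
          · refine ⟨h, ?_⟩
            intro h4
            exact hne (pr_inj h4).1.symm
        · intro q _ q' _ h
          exact (pr_inj h).2

theorem enum_one {m : ℕ} (H : ∀ (k : ℕ) (f : (Fin k → ℕ) → ℕ), E2 k f → EnumA (m + 1) f) :
    ∀ (k : ℕ) (f : (Fin k → ℕ) → ℕ), E2 k f → EnumA 1 f := by
  induction m with
  | zero => exact H
  | succ m ih => exact ih fun k f hf => enum_pred H hf

theorem adv_of_enum (H : ∀ (k : ℕ) (f : (Fin k → ℕ) → ℕ), E2 k f → EnumA 1 f) {K : ℕ}
    {R : (Fin K → ℕ) → Prop} (hR : E2star K R) : Adv R := by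
  obtain ⟨f, hf, hf'⟩ := hR
  obtain ⟨A, hA, Φ, c, hΦ, H⟩ := H K f hf
  refine ⟨A, hA, fun w => Φ (Sum.elim (fun a => w (Sum.inl a)) (fun o => o.elim 0
    (fun i => w (Sum.inr i)))), c, ?_, fun z => ?_⟩
  · refine (hΦ.subst (f := fun s (w : A ⊕ Fin K → ℕ) => Sum.elim (fun a => w (Sum.inl a))
      (fun o : Option (Fin K) => o.elim 0 (fun i => w (Sum.inr i))) s) ?_).congr fun w => Iff.rfl
    rintro (a | o)
    · exact PF.proj _
    · cases o with
      | none => exact PF.const 0
      | some i => exact PF.proj _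
  · obtain ⟨α, hα, hα'⟩ := H z
    refine ⟨α, hα, fun v hv => ?_⟩
    obtain ⟨h1, h2⟩ := hα' v hv
    constructor
    · intro h
      rw [(hf' v).1 h] at h1
      exact h1
    · intro h
      have h3 : (0 : ℕ) = f v := by
        have h4 := Set.encard_le_one_iff.1 (by exact_mod_cast h2)
        exact h4 0 (f v) h h1
      by_contra hR
      have := (hf' v).2 hR
      omega

theorem collapse {m : ℕ} (H : ∀ (k : ℕ) (f : (Fin k → ℕ) → ℕ), E2 k f → EnumA (m + 1) f) {k : ℕ}
    {R : (Fin k → ℕ) → Prop} (hR : E2star k R) : Delta0 k R :=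
  delta0_of_adv (fun _ _ hR => adv_of_enum (enum_one H) hR) hR

end Pool.Agent.J4H96.AV
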