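import Pool.Agent.J4H96.AV.Enum

/-!
# Exceptions can be moved into the advice
-/

set_option autoImplicit false

namespace Pool.Agent.J4H96.AV

open Pool.Agent.J4H63.GZ

/-- `P` holds with advice and few exceptions: there is `c` such that for every `z` there are a bound
`Z` between `z` and `(z + 2) ^ c` and an advice `a ≤ (z + 2) ^ c` for which `P a v` fails for at most
`(Z + 1) ^ (k (1 - 1 / e))` of the `(Z + 1) ^ k` vectors `v` with entries at most `Z` -/
def Mostly (e k : ℕ) (P : ℕ → (Fin k → ℕ) → Prop) : Prop :=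
  ∃ c : ℕ, ∀ z : ℕ, ∃ Z a : ℕ, z ≤ Z ∧ Z ≤ (z + 2) ^ c ∧ a ≤ (z + 2) ^ c ∧
    {v : Fin k → ℕ | (∀ i, v i ≤ Z) ∧ ¬ P a v}.ncard ^ e ≤ (Z + 1) ^ (k * (e - 1))

theorem mostly_of_all {e k : ℕ} (he : 1 ≤ e) {P : ℕ → (Fin k → ℕ) → Prop} (h : ∀ v, P 0 v) :
    Mostly e k P := by
  refine ⟨1, fun z => ⟨z, 0, le_rfl, by rw [pow_one]; omega, Nat.zero_le _, ?_⟩⟩
  have e1 : {v : Fin k → ℕ | (∀ i, v i ≤ z) ∧ ¬ P 0 v} = ∅ := by
    ext v
    simp only [Set.mem_ofPred_eq, Set.mem_empty_iff_false, iff_false, not_and, not_not]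
    exact fun _ => h v
  rw [e1, Set.ncard_empty, zero_pow (by omega)]
  exact Nat.zero_le _

theorem adv_of_mostly {e k C : ℕ} (he : 1 ≤ e) (hC : C = k * (e - 1) + 1)
    {P : ℕ → (Fin (k + C) → ℕ) → Prop} (h : Mostly e (k + C) P) :
    ∃ c : ℕ, ∀ z : ℕ, ∃ α : Option (Fin C) → ℕ, (∀ i, α i ≤ (z + 2) ^ c) ∧
      ∀ v : Fin k → ℕ, (∀ i, v i ≤ z) → P (α none) (Fin.append v (fun j => α (some j))) := by
  classical
  obtain ⟨c, h⟩ := h
  refine ⟨2 * c, fun z => ?_⟩
  obtain ⟨Z, a, hz, hZ, ha, hE⟩ := h (z + 1)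
  have hpow : (z + 1 + 2) ^ c ≤ (z + 2) ^ (2 * c) := by
    rw [pow_mul]
    exact Nat.pow_le_pow_left (by nlinarith) c
  set E : Set (Fin (k + C) → ℕ) := {v | (∀ i, v i ≤ Z) ∧ ¬ P a v} with hEdef
  have hbox : {v : Fin (k + C) → ℕ | ∀ i, v i ≤ Z}.Finite := by
    refine (Set.Finite.pi' (t := fun _ : Fin (k + C) => {x : ℕ | x ≤ Z})
      fun i => Set.finite_le_nat Z)
  have hEf : E.Finite := hbox.subset fun v hv => hv.1
  have hex : ∃ r : Fin C → ℕ, (∀ j, r j ≤ Z) ∧ ∀ v : Fin k → ℕ, (∀ i, v i ≤ Z) →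
      Fin.append v r ∉ E := by
    by_contra hno
    push Not at hno
    have hno' : ∀ r : Fin C → ℕ, ∃ v : Fin k → ℕ, (∀ j, r j ≤ Z) → Fin.append v r ∈ E := by
      intro r
      by_cases hr : ∀ j, r j ≤ Z
      · obtain ⟨v, _, hv⟩ := hno r hr
        exact ⟨v, fun _ => hv⟩
      · exact ⟨0, fun h => absurd h hr⟩
    choose V hV using hno'
    have hcard : (Z + 1) ^ C ≤ E.ncard := by
      have h1 : (Fintype.piFinset (fun _ : Fin C => Finset.range (Z + 1))).card = (Z + 1) ^ C := by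
        rw [Fintype.card_piFinset]
        simp
      rw [← h1, Set.ncard_eq_toFinset_card E hEf]
      refine Finset.card_le_card_of_injOn (fun r => Fin.append (V r) r) ?_ ?_
      · intro r hr
        rw [Finset.mem_coe, Fintype.mem_piFinset] at hr
        rw [Finset.mem_coe, Set.Finite.mem_toFinset]
        exact hV r fun j => by
          have := hr j
          rw [Finset.mem_range] at this
          omega
      · intro r _ r' _ heq
        funext j
        have := congrFun heq (Fin.natAdd k j)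
        simpa using this
    have h2 : (Z + 1) ^ (C * e) ≤ (Z + 1) ^ ((k + C) * (e - 1)) := by
      rw [pow_mul]
      exact (Nat.pow_le_pow_left hcard e).trans hE
    have h3 : C * e ≤ (k + C) * (e - 1) :=
      (Nat.pow_le_pow_iff_right (by omega)).1 h2
    obtain ⟨e, rfl⟩ : ∃ e', e = e' + 1 := ⟨e - 1, by omega⟩
    simp only [Nat.add_sub_cancel] at hC h3
    have h4 : C * (e + 1) = C * e + C := by ring
    have h5 : (k + C) * e = k * e + C * e := by ring
    omega
  obtain ⟨r, hr, hr'⟩ := hex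
  refine ⟨fun o => o.elim a r, fun o => ?_, fun v hv => ?_⟩
  · cases o with
    | none => exact ha.trans hpow
    | some j => exact (hr j).trans (hZ.trans hpow)
  · have h1 := hr' v fun i => (hv i).trans (by omega)
    rw [hEdef] at h1
    simp only [Set.mem_ofPred_eq, not_and, not_not] at h1
    exact h1 (by
      intro i
      refine Fin.addCases (fun i => ?_) (fun j => ?_) i
      · rw [Fin.append_left]; exact (hv i).trans (by omega)
      · rw [Fin.append_right]; exact hr j)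

end Pool.Agent.J4H96.AV
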