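import Pool.Agent.J4H96.AV.Near

/-!
# Wrong guesses give few candidates
-/

set_option autoImplicit false

namespace Pool.Agent.J4H96.AV

open Pool.Agent.J4H63.GZ

theorem E2star_exFin {n : ℕ} : ∀ (m : ℕ) {P : Fin m → (Fin n → ℕ) → Prop},
    (∀ i, E2star n (P i)) → E2star n (fun v => ∃ i, P i v) := by
  intro m
  induction m with
  | zero =>
    intro P _
    have e : (fun v => ∃ i, P i v) = fun _ : Fin n → ℕ => (0 : ℕ) = 1 := by
      funext v
      simp
    rw [e]
    exact E2star.eqf (E2.constf 0) (E2.constf 1)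
  | succ m ih =>
    intro P hP
    have e : (fun v => ∃ i, P i v) = fun v => P 0 v ∨ ∃ i : Fin m, P i.succ v := by
      funext v
      rw [Fin.exists_fin_succ]
    rw [e]
    exact E2star.or (hP 0) (ih fun i => hP i.succ)

/-- never right, with advice -/
def PredAdv (m : ℕ) {k : ℕ} (R : Fin m → (Fin k → ℕ) → Prop) : Prop :=
  ∃ (A : Type) (_ : Finite A) (G : Fin m → (A ⊕ Fin k → ℕ) → Prop) (c : ℕ), (∀ i, Bd (G i)) ∧
    ∀ z : ℕ, ∃ α : A → ℕ, (∀ i, α i ≤ (z + 2) ^ c) ∧ ∀ v : Fin k → ℕ, (∀ i, v i ≤ z) →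
      ¬ ∀ i, (G i (Sum.elim α v) ↔ R i v)

/-- a wrong value, with advice -/
def FunAdv (m : ℕ) {k : ℕ} (f : (Fin k → ℕ) → ℕ) : Prop :=
  ∃ (A : Type) (_ : Finite A) (Γ : (A ⊕ Option (Fin k) → ℕ) → Prop) (c : ℕ), Bd Γ ∧
    ∀ z : ℕ, ∃ α : A → ℕ, (∀ i, α i ≤ (z + 2) ^ c) ∧ ∀ v : Fin k → ℕ, (∀ i, v i ≤ z) →
      ¬ Γ (Sum.elim α (fun o => o.elim (f v) v)) ∧
        ∃ y ≤ m, Γ (Sum.elim α (fun o => o.elim y v))

/-- clause with predicates -/
theorem excl_of_pred {m N k : ℕ} (e : Fin N ≃ (Fin m → Bool)) {f : (Fin k → ℕ) → ℕ} (hf : E2 k f)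
    (H : ∀ (k : ℕ) (R : Fin m → (Fin k → ℕ) → Prop), (∀ i, E2star k (R i)) → PredAdv m R) :
    ExclA N f := by
  classical
  obtain ⟨A, hA, G, c, hG, H⟩ := H (N + k) (fun j u => ∃ p : Fin N,
      u (Fin.castAdd k p) = f (fun i => u (Fin.natAdd N i)) ∧ e p j = true) (by
    intro j
    refine E2star_exFin N fun p => ?_
    by_cases h : e p j = true
    · have h1 : E2star (N + k) (fun u => u (Fin.castAdd k p) = f (fun i => u (Fin.natAdd N i))) :=
        E2star.eqf (E2.proj _) (hf.projs _)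
      have h2 : (fun u : Fin (N + k) → ℕ => u (Fin.castAdd k p) =
          f (fun i => u (Fin.natAdd N i)) ∧ e p j = true) =
          fun u => u (Fin.castAdd k p) = f (fun i => u (Fin.natAdd N i)) := by
        funext u
        simp [h]
      rw [h2]
      exact h1
    · have h2 : (fun u : Fin (N + k) → ℕ => u (Fin.castAdd k p) =
          f (fun i => u (Fin.natAdd N i)) ∧ e p j = true) = fun _ => (0 : ℕ) = 1 := by
        funext u
        simp [h]
      rw [h2]
      exact E2star.eqf (E2.constf 0) (E2.constf 1))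
  refine ⟨A, hA, fun p w => ∀ j, (G j (Sum.elim (fun a => w (Sum.inl a))
    (Fin.append (fun i => w (Sum.inr (Sum.inl i))) (fun i => w (Sum.inr (Sum.inr i))))) ↔
      e p j = true), c, ?_, ?_⟩
  · intro p
    refine Bd.allFin m fun j => ?_
    have h1 : Bd (fun w : A ⊕ (Fin N ⊕ Fin k) → ℕ => G j (Sum.elim (fun a => w (Sum.inl a))
        (Fin.append (fun i => w (Sum.inr (Sum.inl i))) (fun i => w (Sum.inr (Sum.inr i)))))) := by
      refine ((hG j).subst (f := fun s (w : A ⊕ (Fin N ⊕ Fin k) → ℕ) =>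
        Sum.elim (fun a => w (Sum.inl a)) (Fin.append (fun i => w (Sum.inr (Sum.inl i)))
          (fun i => w (Sum.inr (Sum.inr i)))) s) ?_).congr fun w => Iff.rfl
      rintro (a | s)
      · exact PF.proj _
      · refine Fin.addCases (fun i => ?_) (fun i => ?_) s
        · simp only [Sum.elim_inr, Fin.append_left]
          exact PF.proj _
        · simp only [Sum.elim_inr, Fin.append_right]
          exact PF.proj _
    by_cases h : e p j = true
    · exact h1.congr fun w => by simp [h]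
    · exact h1.not.congr fun w => by simp [h]
  · intro z
    obtain ⟨α, ha, H⟩ := H z
    refine ⟨α, ha, fun β v hβ hv hi => ?_⟩
    have hH := H (Fin.append β v) (by
      intro i
      refine Fin.addCases (fun i => ?_) (fun i => ?_) i
      · rw [Fin.append_left]; exact hβ i
      · rw [Fin.append_right]; exact hv i)
    simp only [Fin.append_left, Fin.append_right] at hH
    refine ⟨⟨e.symm (fun j => decide (G j (Sum.elim α (Fin.append β v)))), fun j => ?_⟩, ?_⟩
    · simp only [Sum.elim_inl, Sum.elim_inr, Equiv.apply_symm_apply, decide_eq_true_eq]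
    · intro p hp hpe
      simp only [Sum.elim_inl, Sum.elim_inr] at hp
      refine hH fun j => ?_
      rw [hp j]
      constructor
      · intro h
        exact ⟨p, hpe, h⟩
      · rintro ⟨q, hq, h⟩
        have : q = p := hi (hq.trans hpe.symm)
        rw [← this]
        exact h

/-- clause with functions -/
theorem excl_of_fun {m k : ℕ} {f : (Fin k → ℕ) → ℕ} (hf : E2 k f)
    (H : ∀ (k : ℕ) (f : (Fin k → ℕ) → ℕ), E2 k f → (∀ v, f v ≤ m) → FunAdv m f) :
    ExclA (m + 1) f := by
  classical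
  let S : (Fin (m + 1 + k) → ℕ) → ℕ := fun u => ∑ i : Fin (m + 1), (i : ℕ) *
    (1 - ((u (Fin.castAdd k i) - f (fun i => u (Fin.natAdd (m + 1) i))) +
      (f (fun i => u (Fin.natAdd (m + 1) i)) - u (Fin.castAdd k i))))
  have hS : E2 (m + 1 + k) (fun u => min m (S u)) := by
    refine E2.minf (E2.constf m) (E2_sum (m + 1) fun i => E2.mulf (E2.constf _)
      (E2.sub (E2.constf 1) (E2.add (E2.sub (E2.proj _) (hf.projs _))
        (E2.sub (hf.projs _) (E2.proj _)))))
  have hSi : ∀ (β : Fin (m + 1) → ℕ) (v : Fin k → ℕ) (i : Fin (m + 1)), Function.Injective β →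
      β i = f v → S (Fin.append β v) = i := by
    intro β v i hβ hi
    simp only [S, Fin.append_left, Fin.append_right]
    rw [Finset.sum_eq_single i]
    · rw [hi]; simp
    · intro j _ hj
      have : β j ≠ f v := fun h => hj (hβ (h.trans hi.symm))
      have h2 : 1 - ((β j - f v) + (f v - β j)) = 0 := by omega
      rw [h2, mul_zero]
    · intro h
      exact absurd (Finset.mem_univ i) h
  obtain ⟨A, hA, Γ, c, hΓ, H⟩ := H (m + 1 + k) _ hS fun u => min_le_left _ _
  refine ⟨A, hA, fun p w => Γ (Sum.elim (fun a => w (Sum.inl a))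
    (fun o : Option (Fin (m + 1 + k)) => o.elim (p : ℕ)
    (Fin.append (fun i => w (Sum.inr (Sum.inl i))) (fun i => w (Sum.inr (Sum.inr i)))))),
      c, ?_, ?_⟩
  · intro p
    refine (hΓ.subst (f := fun s (w : A ⊕ (Fin (m + 1) ⊕ Fin k) → ℕ) =>
      Sum.elim (fun a => w (Sum.inl a)) (fun o : Option (Fin (m + 1 + k)) => o.elim (p : ℕ)
        (Fin.append (fun i => w (Sum.inr (Sum.inl i)))
          (fun i => w (Sum.inr (Sum.inr i))))) s) ?_).congr fun w => Iff.rfl
    rintro (a | o)
    · exact PF.proj _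
    · cases o with
      | none => exact PF.const _
      | some s =>
        refine Fin.addCases (fun i => ?_) (fun i => ?_) s
        · simp only [Sum.elim_inr, Option.elim_some, Fin.append_left]
          exact PF.proj _
        · simp only [Sum.elim_inr, Option.elim_some, Fin.append_right]
          exact PF.proj _
  · intro z
    obtain ⟨α, ha, H⟩ := H z
    refine ⟨α, ha, fun β v hβ hv hi => ?_⟩
    obtain ⟨h1, y, hy, h2⟩ := H (Fin.append β v) (by
      intro i
      refine Fin.addCases (fun i => ?_) (fun i => ?_) i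
      · rw [Fin.append_left]; exact hβ i
      · rw [Fin.append_right]; exact hv i)
    refine ⟨⟨⟨y, by omega⟩, h2⟩, ?_⟩
    intro p hp hpe
    apply h1
    have hv' : min m (S (Fin.append β v)) = (p : ℕ) := by
      rw [hSi β v p hi hpe]
      have := p.2
      omega
    change Γ (Sum.elim α (fun o : Option (Fin (m + 1 + k)) =>
      o.elim (min m (S (Fin.append β v))) (Fin.append β v)))
    rw [hv']
    exact hp

/-- predicates, exceptions -/
theorem predAdv_of_mostly {m e : ℕ} (he : 1 ≤ e)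
    (H : ∀ (k : ℕ) (R : Fin m → (Fin k → ℕ) → Prop), (∀ i, E2star k (R i)) →
        ∃ G : Fin m → (Fin (k + 1) → ℕ) → Prop, (∀ i, Delta0 (k + 1) (G i)) ∧
          Mostly e k (fun a v => ¬ ∀ i, (G i (Matrix.vecCons a v) ↔ R i v)))
    {k : ℕ} {R : Fin m → (Fin k → ℕ) → Prop} (hR : ∀ i, E2star k (R i)) : PredAdv m R := by
  obtain ⟨C, hC⟩ : ∃ C, C = k * (e - 1) + 1 := ⟨_, rfl⟩
  obtain ⟨G, hG, hM⟩ := H (k + C) (fun i u => R i (fun j => u (Fin.castAdd C j)))
    fun i => (hR i).comp_proj _
  obtain ⟨c, hM⟩ := adv_of_mostly he hC hM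
  refine ⟨Option (Fin C), inferInstance, fun i w => G i (Matrix.vecCons (w (Sum.inl none))
    (Fin.append (fun j => w (Sum.inr j)) (fun j => w (Sum.inl (some j))))), c, fun i => ?_,
    fun z => ?_⟩
  · refine ((Bd.of_delta0 (hG i)).subst (f := fun s (w : Option (Fin C) ⊕ Fin k → ℕ) =>
      Matrix.vecCons (w (Sum.inl none)) (Fin.append (fun j => w (Sum.inr j))
        (fun j => w (Sum.inl (some j)))) s) ?_).congr fun w => Iff.rfl
    intro s
    refine Fin.cases ?_ (fun s => ?_) s
    · exact PF.proj _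
    · refine Fin.addCases (fun i => ?_) (fun i => ?_) s
      · simp only [Matrix.cons_val_succ, Fin.append_left]
        exact PF.proj _
      · simp only [Matrix.cons_val_succ, Fin.append_right]
        exact PF.proj _
  · obtain ⟨α, hα, hM⟩ := hM z
    refine ⟨α, hα, fun v hv h => hM v hv fun i => ?_⟩
    have h' := h i
    simp only [Sum.elim_inl, Sum.elim_inr] at h'
    simp only [Fin.append_left]
    exact h'

/-- functions, exceptions -/
theorem funAdv_of_mostly {m e : ℕ} (he : 1 ≤ e)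
    (H : ∀ (k : ℕ) (f : (Fin k → ℕ) → ℕ), E2 k f → (∀ v, f v ≤ m) →
        ∃ g : (Fin (k + 1) → ℕ) → ℕ, Delta0 (k + 2) (fun w => g (fun i => w i.succ) = w 0) ∧
          Mostly e k (fun a v => g (Matrix.vecCons a v) ≤ m ∧ g (Matrix.vecCons a v) ≠ f v))
    {k : ℕ} {f : (Fin k → ℕ) → ℕ} (hf : E2 k f) (hfm : ∀ v, f v ≤ m) : FunAdv m f := by
  obtain ⟨C, hC⟩ : ∃ C, C = k * (e - 1) + 1 := ⟨_, rfl⟩
  obtain ⟨g, hg, hM⟩ := H (k + C) (fun u => f (fun j => u (Fin.castAdd C j))) (hf.projs _)
    fun u => hfm _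
  obtain ⟨c, hM⟩ := adv_of_mostly he hC hM
  refine ⟨Option (Fin C), inferInstance, fun w => g (Matrix.vecCons (w (Sum.inl none))
    (Fin.append (fun j => w (Sum.inr (some j))) (fun j => w (Sum.inl (some j))))) =
      w (Sum.inr none), c, ?_, fun z => ?_⟩
  · refine ((Bd.of_delta0 hg).subst (f := fun s (w : Option (Fin C) ⊕ Option (Fin k) → ℕ) =>
      Matrix.vecCons (w (Sum.inr none)) (Matrix.vecCons (w (Sum.inl none))
        (Fin.append (fun j => w (Sum.inr (some j))) (fun j => w (Sum.inl (some j))))) s)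
        ?_).congr fun w => Iff.rfl
    intro s
    refine Fin.cases ?_ (fun s => Fin.cases ?_ (fun s => ?_) s) s
    · exact PF.proj _
    · exact PF.proj _
    · refine Fin.addCases (fun i => ?_) (fun i => ?_) s
      · simp only [Matrix.cons_val_succ, Fin.append_left]
        exact PF.proj _
      · simp only [Matrix.cons_val_succ, Fin.append_right]
        exact PF.proj _
  · obtain ⟨α, hα, hM⟩ := hM z
    refine ⟨α, hα, fun v hv => ?_⟩
    have h := hM v hv
    simp only [Fin.append_left] at h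
    exact ⟨h.2, _, h.1, rfl⟩

/-- candidates, exceptions -/
theorem enum_of_mostly {m e : ℕ} (he : 1 ≤ e)
    (H : ∀ (k : ℕ) (f : (Fin k → ℕ) → ℕ), E2 k f →
        ∃ C : (Fin (k + 1) → ℕ) → ℕ → Prop, Delta0 (k + 2) (fun w => C (fun i => w i.succ) (w 0)) ∧
          Mostly e k (fun a v => C (Matrix.vecCons a v) (f v) ∧
            {y | C (Matrix.vecCons a v) y}.encard ≤ m))
    {k : ℕ} {f : (Fin k → ℕ) → ℕ} (hf : E2 k f) : EnumA m f := by
  obtain ⟨C, hC⟩ : ∃ C, C = k * (e - 1) + 1 := ⟨_, rfl⟩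
  obtain ⟨g, hg, hM⟩ := H (k + C) (fun u => f (fun j => u (Fin.castAdd C j))) (hf.projs _)
  obtain ⟨c, hM⟩ := adv_of_mostly he hC hM
  refine ⟨Option (Fin C), inferInstance, fun w => g (Matrix.vecCons (w (Sum.inl none))
    (Fin.append (fun j => w (Sum.inr (some j))) (fun j => w (Sum.inl (some j)))))
      (w (Sum.inr none)), c, ?_, fun z => ?_⟩
  · refine ((Bd.of_delta0 hg).subst (f := fun s (w : Option (Fin C) ⊕ Option (Fin k) → ℕ) =>
      Matrix.vecCons (w (Sum.inr none)) (Matrix.vecCons (w (Sum.inl none))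
        (Fin.append (fun j => w (Sum.inr (some j))) (fun j => w (Sum.inl (some j))))) s)
        ?_).congr fun w => Iff.rfl
    intro s
    refine Fin.cases ?_ (fun s => Fin.cases ?_ (fun s => ?_) s) s
    · exact PF.proj _
    · exact PF.proj _
    · refine Fin.addCases (fun i => ?_) (fun i => ?_) s
      · simp only [Matrix.cons_val_succ, Fin.append_left]
        exact PF.proj _
      · simp only [Matrix.cons_val_succ, Fin.append_right]
        exact PF.proj _
  · obtain ⟨α, hα, hM⟩ := hM z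
    refine ⟨α, hα, fun v hv => ?_⟩
    have h := hM v hv
    simp only [Fin.append_left] at h
    exact h

end Pool.Agent.J4H96.AV
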