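import Pool.Agent.J4H63.GZ.Main

/-!
# Few candidates: tools
-/

set_option autoImplicit false

namespace Pool.Agent.J4H96.AV

open Pool.Agent.J4H63.GZ MvPolynomial

/-- polynomials are bounded by powers -/
theorem pf_pow {ι : Type} {b : (ι → ℕ) → ℕ} (hb : PF b) :
    ∃ d : ℕ, ∀ (z : ℕ) (v : ι → ℕ), (∀ i, v i ≤ z) → b v ≤ (z + 2) ^ d := by
  obtain ⟨p, hp⟩ := hb
  have key : ∀ p : MvPolynomial ι ℕ, ∃ d : ℕ, ∀ (z : ℕ) (v : ι → ℕ), (∀ i, v i ≤ z) →
      eval v p ≤ (z + 2) ^ d := by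
    intro p
    induction p using MvPolynomial.induction_on with
    | C a =>
      refine ⟨a, fun z v _ => ?_⟩
      rw [eval_C]
      calc a ≤ 2 ^ a := Nat.lt_two_pow_self.le
        _ ≤ (z + 2) ^ a := Nat.pow_le_pow_left (by omega) a
    | add p q hp hq =>
      obtain ⟨d, hd⟩ := hp
      obtain ⟨e, he⟩ := hq
      refine ⟨d + e + 1, fun z v hv => ?_⟩
      have h1 := hd z v hv
      have h2 := he z v hv
      have h3 : (z + 2) ^ d ≤ (z + 2) ^ (d + e) := Nat.pow_le_pow_right (by omega) (by omega)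
      have h4 : (z + 2) ^ e ≤ (z + 2) ^ (d + e) := Nat.pow_le_pow_right (by omega) (by omega)
      rw [map_add]
      calc eval v p + eval v q ≤ (z + 2) ^ (d + e) + (z + 2) ^ (d + e) := by omega
        _ = (z + 2) ^ (d + e) * 2 := by ring
        _ ≤ (z + 2) ^ (d + e) * (z + 2) := Nat.mul_le_mul_left _ (by omega)
        _ = (z + 2) ^ (d + e + 1) := (pow_succ _ _).symm
    | mul_X p i hp =>
      obtain ⟨d, hd⟩ := hp
      refine ⟨d + 1, fun z v hv => ?_⟩
      rw [map_mul, eval_X, pow_succ]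
      exact Nat.mul_le_mul (hd z v hv) ((hv i).trans (by omega))
  obtain ⟨d, hd⟩ := key p
  exact ⟨d, fun z v hv => by rw [hp]; exact hd z v hv⟩

/-- the functions in `E²` are bounded by polynomials -/
theorem e2_bd {n : ℕ} {f : (Fin n → ℕ) → ℕ} (hf : E2 n f) :
    ∃ b : (Fin n → ℕ) → ℕ, PF b ∧ ∀ v, f v ≤ b v := by
  induction hf with
  | zero => exact ⟨fun _ => 0, PF.const 0, fun _ => le_rfl⟩
  | succ => exact ⟨fun v => v 0 + 1, (PF.proj 0).add (PF.const 1), fun _ => le_rfl⟩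
  | proj i => exact ⟨fun v => v i, PF.proj i, fun _ => le_rfl⟩
  | mul => exact ⟨fun v => (v 0 + 1) * (v 1 + 1),
      ((PF.proj 0).add (PF.const 1)).mul ((PF.proj 1).add (PF.const 1)), fun _ => le_rfl⟩
  | comp _ _ ih1 ih2 =>
    obtain ⟨bg, hbg, hbg'⟩ := ih1
    choose b hb hb' using ih2
    exact ⟨fun v => bg (fun i => b i v), hbg.comp hb, fun v => (hbg' _).trans
      (hbg.mono fun i => hb' i v)⟩
  | lrec _ _ _ hFb _ _ _ _ ihb =>
    obtain ⟨b, hb, hb'⟩ := ihb
    exact ⟨b, hb, fun v => (hFb v).trans (hb' v)⟩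

theorem Bd_exFin {ι : Type} (m : ℕ) {P : Fin m → (ι → ℕ) → Prop} (hP : ∀ i, Bd (P i)) :
    Bd (fun v => ∃ i, P i v) :=
  (Bd.not (Bd.allFin m (P := fun i v => ¬ P i v) fun i => Bd.not (hP i))).congr fun v => by
    push Not
    rfl

theorem Bd_false {ι : Type} : Bd (fun _ : ι → ℕ => False) :=
  (Bd.eqf (PF.const 0) (PF.const 1)).congr fun v => by simp

theorem Bd_true {ι : Type} : Bd (fun _ : ι → ℕ => True) :=
  (Bd.eqf (PF.const 0) (PF.const 0)).congr fun v => by simp

theorem Bd_inj {ι : Type} (m : ℕ) {r : Fin m → (ι → ℕ) → ℕ} (hr : ∀ i, PF (r i)) :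
    Bd (fun v => Function.Injective (fun i => r i v)) := by
  have h : Bd (fun v => ∀ i j : Fin m, (r i v = r j v → i = j)) := by
    refine Bd.allFin m (P := fun i v => ∀ j : Fin m, (r i v = r j v → i = j)) fun i =>
      Bd.allFin m (P := fun j v => (r i v = r j v → i = j)) fun j => ?_
    by_cases hij : i = j
    · exact Bd_true.congr fun v => by simp [hij]
    · exact (Bd.not (Bd.eqf (hr i) (hr j))).congr fun v => by simp [hij]
  exact h.congr fun v => ⟨fun h i j hij => h hij, fun h i j hij => h i j hij⟩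

theorem E2_sum {n : ℕ} : ∀ (m : ℕ) {F : Fin m → (Fin n → ℕ) → ℕ}, (∀ i, E2 n (F i)) →
    E2 n (fun v => ∑ i, F i v) := by
  intro m
  induction m with
  | zero =>
    intro F _
    have e : (fun v => ∑ i, F i v) = fun _ : Fin n → ℕ => 0 := by
      funext v
      simp
    rw [e]
    exact E2.zero
  | succ m ih =>
    intro F hF
    have e : (fun v => ∑ i, F i v) = fun v => F 0 v + ∑ i : Fin m, F i.succ v := by
      funext v
      rw [Fin.sum_univ_succ]
    rw [e]
    exact E2.add (hF 0) (ih fun i => hF i.succ)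

/-- a pairing function -/
def pr (a b : ℕ) : ℕ := (a + b) * (a + b) + a

theorem pr_inj {a b c d : ℕ} (h : pr a b = pr c d) : a = c ∧ b = d := by
  unfold pr at h
  have h1 : a + b = c + d := by
    by_contra hne
    rcases Nat.lt_or_gt_of_ne hne with h2 | h2
    · have h3 : (a + b + 1) * (a + b + 1) ≤ (c + d) * (c + d) := Nat.mul_le_mul h2 h2
      nlinarith
    · have h3 : (c + d + 1) * (c + d + 1) ≤ (a + b) * (a + b) := Nat.mul_le_mul h2 h2
      nlinarith
  rw [h1] at h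
  omega

theorem delta0_of_adv (H : ∀ (K : ℕ) (R : (Fin K → ℕ) → Prop), E2star K R → Adv R) {k : ℕ}
    {R : (Fin k → ℕ) → Prop} (hR : E2star k R) : Delta0 k R := by
  have nice : ∀ {n : ℕ} {f : (Fin n → ℕ) → ℕ}, E2 n f → Nice f := by
    intro n f hf
    induction hf with
    | zero => exact Nice.of_pf (PF.const 0)
    | succ => exact Nice.of_pf ((PF.proj 0).add (PF.const 1))
    | proj i => exact Nice.of_pf (PF.proj i)
    | mul => exact Nice.of_pf (((PF.proj 0).add (PF.const 1)).mul ((PF.proj 1).add (PF.const 1)))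
    | comp _ _ ih1 ih2 => exact Nice.comp ih1 ih2
    | lrec hg hh hb hFb h0 h1 ihg ihh ihb =>
      exact nice_rec_of_adv (H _ _ (e2star_cutRel hg hh)) ihg ihh ihb hFb h0 h1
  obtain ⟨f, hf, hf'⟩ := hR
  have h := (nice hf).graph (ι := Fin k) (a := fun i v => v i)
    (fun i => PF.proj i) (y := fun _ => 0) (PF.const 0)
  refine Bd.delta0_iff.2 (h.congr fun v => ⟨fun hR => (hf' v).1 hR, fun h0 => ?_⟩)
  by_contra hR
  have h1 := (hf' v).2 hR
  have h2 : f v = 0 := h0
  omega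

end Pool.Agent.J4H96.AV
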